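import Pool.Agent.W894.MB.Neg

/-!
MD-MU: arbitrarily large sets with as many sequences as subsets.
-/

namespace Pool.Agent.W926.MDMu

open Cardinal Pool.Agent.W894.MBNeg

universe u

/-- iterated power sets of `K ⊕ ℕ` -/
def T (K : Type u) : ℕ → Type u
  | 0 => K ⊕ ULift.{u} ℕ
  | n + 1 => Set (T K n)

/-- the disjoint union of the iterated power sets -/
def M (K : Type u) : Type u := Σ n : ℕ, T K n

/-- subsets of `M K` as sequences -/
def code (K : Type u) (S : Set (M K)) : ℕ → M K :=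
  fun n => ⟨n + 1, (({x : T K n | (⟨n, x⟩ : M K) ∈ S} : Set (T K n)) : T K (n + 1))⟩

theorem code_inj (K : Type u) : Function.Injective (code K) := by
  intro S S' h
  ext ⟨n, x⟩
  have h1 := congrFun h n
  have h2 : ({x : T K n | (⟨n, x⟩ : M K) ∈ S} : Set (T K n)) = {x : T K n | (⟨n, x⟩ : M K) ∈ S'} := by
    have := Sigma.mk.inj_iff.1 h1
    exact eq_of_heq this.2
  have h3 : x ∈ ({x : T K n | (⟨n, x⟩ : M K) ∈ S} : Set (T K n)) ↔
      x ∈ ({x : T K n | (⟨n, x⟩ : M K) ∈ S'} : Set (T K n)) := by rw [h2]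
  exact h3

theorem main : S_MU.{u} := by
  intro K
  have hinf : Infinite (M K) := by
    refine Infinite.of_injective (fun n : ℕ => (⟨0, (Sum.inr (ULift.up n) : K ⊕ ULift.{u} ℕ)⟩ : M K)) ?_
    intro a b h
    have h1 := eq_of_heq (Sigma.mk.inj_iff.1 h).2
    have h2 := Sum.inr_injective h1
    exact ULift.up_injective h2
  have hK : #K ≤ #(M K) := by
    refine Cardinal.mk_le_of_injective (f := fun k : K => (⟨0, (Sum.inl k : K ⊕ ULift.{u} ℕ)⟩ : M K)) ?_
    intro a b h
    have h1 := eq_of_heq (Sigma.mk.inj_iff.1 h).2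
    exact Sum.inl_injective h1
  have hal : ℵ₀ ≤ #(M K) := Cardinal.aleph0_le_mk _
  have h1 : #(List (M K) → M K) = 2 ^ #(M K) := by
    rw [Cardinal.mk_arrow, Cardinal.lift_id, Cardinal.lift_id, Cardinal.mk_list_eq_mk,
      Cardinal.power_self_eq hal]
  have h2 : #(Set (M K)) ≤ #(ℕ → M K) := Cardinal.mk_le_of_injective (code_inj K)
  rw [Cardinal.mk_set] at h2
  have h3 : #(ℕ → M K) ≤ 2 ^ #(M K) := by
    rw [Cardinal.mk_arrow, Cardinal.mk_nat, Cardinal.lift_aleph0, Cardinal.lift_uzero,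
      ← Cardinal.power_self_eq hal]
    exact Cardinal.power_le_power_left (by
      intro h0
      rw [h0] at hal
      exact absurd hal (not_le.2 Cardinal.aleph0_pos)) hal
  have h4 : #(ℕ → M K) = 2 ^ #(M K) := le_antisymm h3 h2
  refine ⟨M K, ?_, by rw [h1, h4], ?_⟩
  · obtain ⟨a, b, hab⟩ := exists_pair_ne (M K)
    exact ⟨a, b, hab⟩
  · rw [h4]
    refine lt_of_le_of_lt hK ?_
    exact Cardinal.lt_cof_ord_power hal (by exact_mod_cast Nat.one_lt_two)

end Pool.Agent.W926.MDMu
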